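import Pool.Agent.H25.PG.Targets

/-!
Row CV of `pg_modules`: convolution of restricted partition functions.
-/

set_option autoImplicit false

open Finset

namespace Pool.Agent.H75.PG

open Pool.Agent.H55.PM
open Pool.Agent.H25.PG

/-- the weight of a representation -/
def wt (r : ℕ →₀ ℕ) : ℕ := r.sum (fun a k => k * a)

lemma wt_add (r r' : ℕ →₀ ℕ) : wt (r + r') = wt r + wt r' :=
  Finsupp.sum_add_index' (fun a => by simp) (fun a b c => by ring)

section
open Classical

variable {A A' M : Set ℕ}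

lemma rep_add (hd : Disjoint A A') {x y : ℕ} {r r' : ℕ →₀ ℕ} (h : Rep A M x r)
    (h' : Rep A' M y r') : Rep (A ∪ A') M (x + y) (r + r') := by
  refine ⟨fun a ha => ?_, ?_⟩
  · rw [Finsupp.add_apply] at ha ⊢
    by_cases h1 : r a = 0
    · rw [h1, zero_add] at ha ⊢
      exact ⟨Or.inr (h'.1 a ha).1, (h'.1 a ha).2⟩
    · have h2 : r' a = 0 := by
        by_contra h2
        exact Set.disjoint_left.1 hd (h.1 a h1).1 (h'.1 a h2).1
      rw [h2, add_zero]
      exact ⟨Or.inl (h.1 a h1).1, (h.1 a h1).2⟩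
  · have h1 : wt (r + r') = wt r + wt r' := wt_add r r'
    have h2 : wt r = x := h.2
    have h3 : wt r' = y := h'.2
    exact h1.trans (by rw [h2, h3])

lemma filter_add_left (hd : Disjoint A A') {x y : ℕ} {r r' : ℕ →₀ ℕ} (h : Rep A M x r)
    (h' : Rep A' M y r') : (r + r').filter (· ∈ A) = r := by
  ext a
  rw [Finsupp.filter_apply]
  split_ifs with ha
  · have h2 : r' a = 0 := by
      by_contra h2
      exact Set.disjoint_left.1 hd ha (h'.1 a h2).1
    rw [Finsupp.add_apply, h2, add_zero]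
  · by_contra h2
    exact ha (h.1 a (Ne.symm h2)).1

lemma filter_add_right (hd : Disjoint A A') {x y : ℕ} {r r' : ℕ →₀ ℕ} (h : Rep A M x r)
    (h' : Rep A' M y r') : (r + r').filter (¬ · ∈ A) = r' := by
  ext a
  rw [Finsupp.filter_apply]
  split_ifs with ha
  · by_contra h2
    exact Set.disjoint_left.1 hd ha (h'.1 a (Ne.symm h2)).1
  · have h2 : r a = 0 := by
      by_contra h2
      exact ha (h.1 a h2).1
    rw [Finsupp.add_apply, h2, zero_add]

lemma rep_filter_left {n : ℕ} {r : ℕ →₀ ℕ} (h : Rep (A ∪ A') M n r) :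
    Rep A M (wt (r.filter (· ∈ A))) (r.filter (· ∈ A)) := by
  refine ⟨fun a ha => ?_, rfl⟩
  rw [Finsupp.filter_apply] at ha ⊢
  split_ifs at ha ⊢ with h1
  · exact ⟨h1, (h.1 a ha).2⟩
  · exact absurd rfl ha

lemma rep_filter_right {n : ℕ} {r : ℕ →₀ ℕ} (h : Rep (A ∪ A') M n r) :
    Rep A' M (wt (r.filter (¬ · ∈ A))) (r.filter (¬ · ∈ A)) := by
  refine ⟨fun a ha => ?_, rfl⟩
  rw [Finsupp.filter_apply] at ha ⊢
  split_ifs at ha ⊢ with h1
  · exact absurd rfl ha
  · exact ⟨(h.1 a ha).1.resolve_left h1, (h.1 a ha).2⟩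

end

open Classical in
theorem pf_CV (hRB : T_RB) : T_CV := by
  intro A A' M n hA hA' hd
  have hU : ∀ a ∈ A ∪ A', 0 < a := by
    rintro a (h | h)
    · exact hA a h
    · exact hA' a h
  have e1 : ∀ m, pc A M m = (hRB A M m hA).1.toFinset.card := fun m =>
    (hRB A M m hA).2.trans (Set.ncard_eq_toFinset_card _ (hRB A M m hA).1)
  have e2 : ∀ m, pc A' M m = (hRB A' M m hA').1.toFinset.card := fun m =>
    (hRB A' M m hA').2.trans (Set.ncard_eq_toFinset_card _ (hRB A' M m hA').1)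
  rw [(hRB (A ∪ A') M n hU).2, Set.ncard_eq_toFinset_card _ (hRB (A ∪ A') M n hU).1]
  have e3 : ∑ x ∈ antidiagonal n, pc A M x.1 * pc A' M x.2 =
      ((antidiagonal n).sigma fun x => (hRB A M x.1 hA).1.toFinset ×ˢ
        (hRB A' M x.2 hA').1.toFinset).card := by
    rw [Finset.card_sigma]
    refine Finset.sum_congr rfl fun x _ => ?_
    rw [Finset.card_product]
    exact congrArg₂ (· * ·) (e1 x.1) (e2 x.2)
  rw [e3]
  symm
  refine Finset.card_nbij' (fun p => p.2.1 + p.2.2)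
    (fun r => ⟨(wt (r.filter (· ∈ A)), wt (r.filter (¬ · ∈ A))),
      (r.filter (· ∈ A), r.filter (¬ · ∈ A))⟩) ?_ ?_ ?_ ?_
  · rintro ⟨⟨x, y⟩, ⟨r, r'⟩⟩ h
    simp only [Finset.coe_sigma, Set.mem_sigma_iff, Finset.mem_coe, HasAntidiagonal.mem_antidiagonal,
      Finset.mem_product, Set.Finite.mem_toFinset, Set.mem_ofPred_eq] at h ⊢
    rw [← h.1]
    exact rep_add hd h.2.1 h.2.2
  · intro r h
    simp only [Finset.coe_sigma, Set.mem_sigma_iff, Finset.mem_coe, HasAntidiagonal.mem_antidiagonal,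
      Finset.mem_product, Set.Finite.mem_toFinset, Set.mem_ofPred_eq] at h ⊢
    refine ⟨?_, rep_filter_left h, rep_filter_right h⟩
    rw [← wt_add, Finsupp.filter_add_filter_not]
    exact h.2
  · rintro ⟨⟨x, y⟩, ⟨r, r'⟩⟩ h
    simp only [Finset.coe_sigma, Set.mem_sigma_iff, Finset.mem_coe, HasAntidiagonal.mem_antidiagonal,
      Finset.mem_product, Set.Finite.mem_toFinset, Set.mem_ofPred_eq] at h
    obtain ⟨-, hr, hr'⟩ := h
    have h1 := filter_add_left hd hr hr'
    have h2 := filter_add_right hd hr hr'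
    have h3 : wt r = x := hr.2
    have h4 : wt r' = y := hr'.2
    simp only [h1, h2, h3, h4]
  · intro r h
    exact Finsupp.filter_add_filter_not r (· ∈ A)

end Pool.Agent.H75.PG
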