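import Pool.Agent.H93.PG.Targets

/-! Power-free shifts: words with a factor in a given set (row SPL). -/

set_option autoImplicit false

open MeasureTheory Filter Topology Finset Pool.Agent.H93.PF Pool.Agent.H93.PG

namespace Pool.Agent.H75.PG

/-- A factor of a word without forbidden repetitions has none. -/
theorem gd_factor {A : Type} {m : ℕ → ℕ} {n : ℕ} {w : Fin n → A} (hw : Gd m w) (i l : ℕ)
    (h : i + l ≤ n) : Gd m (fun x : Fin l => w ⟨i + x, by omega⟩) := by
  intro q i' hq hi' hper
  refine hw q (i + i') hq (by omega) fun j hj hij hjl => ?_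
  have h1 := hper (j - i) (by omega) (by omega) (by omega)
  have e1 : i + (j - i + q) = j + q := by omega
  have e2 : i + (j - i) = j := by omega
  simp only [e1, e2] at h1
  exact h1

theorem pf_SPL : T_SPL := by
  classical
  intro d m i j k S
  have h1 : ((FF d m (i + j + k)).filter fun w =>
      (fun x : Fin j => w ⟨i + x, by omega⟩) ∈ S).card ≤
      (FF d m i ×ˢ (S ×ˢ FF d m k)).card := by
    refine Finset.card_le_card_of_injOn (fun w : Fin (i + j + k) → Fin d =>
      ((fun x : Fin i => w ⟨x, by omega⟩), ((fun x : Fin j => w ⟨i + x, by omega⟩),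
        (fun x : Fin k => w ⟨i + j + x, by omega⟩)))) ?_ ?_
    · intro w hw
      rw [Finset.mem_coe, Finset.mem_filter] at hw
      obtain ⟨hw1, hw2⟩ := hw
      unfold FF at hw1
      rw [Finset.mem_filter] at hw1
      rw [Finset.mem_coe, Finset.mem_product, Finset.mem_product]
      refine ⟨?_, hw2, ?_⟩
      · unfold FF
        rw [Finset.mem_filter]
        refine ⟨Finset.mem_univ _, ?_⟩
        have h2 := gd_factor hw1.2 0 i (by omega)
        simp only [Nat.zero_add] at h2
        exact h2
      · unfold FF
        rw [Finset.mem_filter]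
        exact ⟨Finset.mem_univ _, gd_factor hw1.2 (i + j) k (by omega)⟩
    · intro w _ w' _ h
      rw [Prod.mk.injEq, Prod.mk.injEq] at h
      obtain ⟨ha, hb, hc⟩ := h
      funext x
      rcases lt_or_ge (x : ℕ) i with hx | hx
      · exact congrFun ha ⟨x, hx⟩
      · rcases lt_or_ge (x : ℕ) (i + j) with hx2 | hx2
        · have h2 := congrFun hb ⟨x - i, by omega⟩
          have e : i + ((x : ℕ) - i) = x := by omega
          simp only [e] at h2
          exact h2
        · have h2 := congrFun hc ⟨x - (i + j), by omega⟩
          have e : i + j + ((x : ℕ) - (i + j)) = x := by omega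
          simp only [e] at h2
          exact h2
  refine h1.trans (le_of_eq ?_)
  rw [Finset.card_product, Finset.card_product, mul_assoc]

end Pool.Agent.H75.PG
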