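import Pool.Agent.H93.PG.Targets

/-! Power-free shifts: submultiplicative sequences (row SUB). -/

set_option autoImplicit false

open MeasureTheory Filter Topology Finset Pool.Agent.H93.PF Pool.Agent.H93.PG

namespace Pool.Agent.H75.PG

theorem pf_SUB : T_SUB := by
  intro u h1 h2
  have hpos : ∀ n, 0 < u n := fun n => by linarith [h1 n]
  have hsub : Subadditive fun n => Real.log (u n) := by
    intro i j
    change Real.log (u (i + j)) ≤ Real.log (u i) + Real.log (u j)
    rw [← Real.log_mul (hpos i).ne' (hpos j).ne']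
    exact Real.log_le_log (hpos _) (h2 i j)
  have hlog : ∀ n, 0 ≤ Real.log (u n) := fun n => Real.log_nonneg (h1 n)
  have hbdd : BddBelow (Set.range fun n : ℕ => Real.log (u n) / n) := by
    refine ⟨0, ?_⟩
    rintro x ⟨n, rfl⟩
    exact div_nonneg (hlog n) (Nat.cast_nonneg n)
  have hlim := hsub.tendsto_lim hbdd
  have hH0 : 0 ≤ hsub.lim := by
    refine ge_of_tendsto' hlim fun n => ?_
    exact div_nonneg (hlog n) (Nat.cast_nonneg n)
  refine ⟨hsub.lim, hH0, fun n => ?_, fun δ hδ => ?_⟩
  · rcases Nat.eq_zero_or_pos n with hn | hn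
    · subst hn
      simpa using h1 0
    · have h3 := hsub.lim_le_div hbdd hn.ne'
      have hn0 : (0 : ℝ) < n := by exact_mod_cast hn
      rw [le_div_iff₀ hn0] at h3
      calc Real.exp (hsub.lim * n) ≤ Real.exp (Real.log (u n)) := Real.exp_le_exp.2 h3
        _ = u n := Real.exp_log (hpos n)
  · have h3 : ∀ᶠ n : ℕ in atTop, Real.log (u n) / n < hsub.lim + δ :=
      hlim.eventually_lt_const (by linarith)
    obtain ⟨n₀, hn₀⟩ := eventually_atTop.1 h3
    have hS : ∀ n, n ∈ range (n₀ + 1) → u n ≤ ∑ k ∈ range (n₀ + 1), u k := fun n hn =>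
      Finset.single_le_sum (f := u) (fun k _ => (hpos k).le) hn
    have hS0 : 0 ≤ ∑ k ∈ range (n₀ + 1), u k := Finset.sum_nonneg fun k _ => (hpos k).le
    refine ⟨1 + ∑ k ∈ range (n₀ + 1), u k, fun n => ?_⟩
    have he : 1 ≤ Real.exp ((hsub.lim + δ) * n) := by
      rw [Real.one_le_exp_iff]
      positivity
    rcases Nat.lt_or_ge n (n₀ + 1) with hn | hn
    · have h4 := hS n (Finset.mem_range.2 hn)
      nlinarith
    · have hn0 : (0 : ℝ) < n := by exact_mod_cast (by omega : 0 < n)
      have h4 := hn₀ n (by omega)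
      rw [div_lt_iff₀ hn0] at h4
      have h5 : u n ≤ Real.exp ((hsub.lim + δ) * n) := by
        calc u n = Real.exp (Real.log (u n)) := (Real.exp_log (hpos n)).symm
          _ ≤ Real.exp ((hsub.lim + δ) * n) := Real.exp_le_exp.2 h4.le
      nlinarith

end Pool.Agent.H75.PG
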