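import Pool.Agent.H93.PG.Targets

/-! Power-free shifts: the coded sequences determine the tiles, the colours and the messages
(row ZI3). -/

set_option autoImplicit false

open MeasureTheory Filter Topology Finset Pool.Agent.H93.PF Pool.Agent.H93.PG

namespace Pool.Agent.H75.PG

/-- The starts of the tiles of `y'` are starts of the tiles of `y`. -/
theorem ob_sub (hZT3 : T_ZT3) {Y : Type} [MeasurableSpace Y] {T : Y ≃ᵐ Y} {d : ℕ} {m : ℕ → ℕ}
    (c : Cy T d m) {y y' : Y} (hy : Rc T c.D y) (hy' : Rc T c.D y') (h : c.phi y = c.phi y') :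
    ob T c.B0 y' ⊆ ob T c.B0 y := by
  intro s hs
  obtain ⟨h1, -⟩ := hZT3 Y T d m c y hy
  obtain ⟨h1', -⟩ := hZT3 Y T d m c y' hy'
  refine c.tc.uniq _ _ _ h1 s fun j hj => ?_
  obtain ⟨g, hg, hNx⟩ := h1'.next s hs
  obtain ⟨hc, k, hk, hw⟩ := h1'.cont s hs g hNx
  have hjg : j < g := by
    have h2 := c.tc.Rk
    have h3 := c.tc.kL
    rcases hg with hg | hg <;> omega
  have h4 := congrFun hw ⟨j, hjg⟩
  have h5 := c.tc.mkr g hg _ k hc hk j hjg hj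
  rw [h5] at h4
  rw [h]
  exact h4

theorem pf_ZI3 (hZT3 : T_ZT3) (hCCD : T_CCD) : T_ZI3 := by
  intro Y _ T d m c y y' hy hy' h
  have hob : ob T c.B0 y = ob T c.B0 y' :=
    Set.Subset.antisymm (ob_sub hZT3 c hy' hy h.symm) (ob_sub hZT3 c hy hy' h)
  refine ⟨hob, fun s hs => ?_⟩
  obtain ⟨h1, h2⟩ := hZT3 Y T d m c y hy
  obtain ⟨-, h2'⟩ := hZT3 Y T d m c y' hy'
  obtain ⟨g, hg, hNx⟩ := h1.next s hs
  obtain ⟨ha, hb, hc⟩ := h2 s hs g hNx
  have hs' : s ∈ ob T c.B0 y' := hob ▸ hs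
  have hNx' : Nx (ob T c.B0 y') s g := hob ▸ hNx
  obtain ⟨ha', hb', hc'⟩ := h2' s hs' g hNx'
  have hW : c.tc.W g (c.cl (zp T s y)) (c.ms (zp T s y)) =
      c.tc.W g (c.cl (zp T s y')) (c.ms (zp T s y')) := by
    rw [← ha, ← ha', h]
  obtain ⟨h3, h4⟩ := c.tc.inj g hg _ _ _ _ hc hb hc' hb' hW
  exact ⟨((hCCD Y T c.tc.L c.D (zp T s y) (zp T s y')).2 h3).1, h4⟩

end Pool.Agent.H75.PG
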