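import Pool.Agent.H93.PG.Targets
import Pool.Agent.H93.PF.All

/-! Power-free shifts: the letter at the time `0` is measurable (row ZM3). -/

set_option autoImplicit false

open MeasureTheory Filter Topology Finset Pool.Agent.H93.PF Pool.Agent.H93.PG

namespace Pool.Agent.H75.PG

/-- The iterate at a measurable time is measurable. -/
theorem zp_neg_meas {Y : Type} [MeasurableSpace Y] (T : Y ≃ᵐ Y) {a : Y → ℕ}
    (ha : Measurable a) : Measurable (fun y => zp T (-(a y : ℤ)) y) := by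
  have h : Measurable (fun p : ℕ × Y => zp T (-(p.1 : ℤ)) p.2) :=
    measurable_from_prod_countable_right fun n => measurable_zp T (-(n : ℤ))
  exact h.comp (ha.prodMk measurable_id)

theorem pf_ZM3 (hME3 : T_ME3) : T_ZM3 := by
  intro Y _ T d m c
  obtain ⟨h1, h2⟩ := Pool.Agent.H93.PF.All.r_MES Y T
  obtain ⟨hBk, -⟩ := h2 c.tc.L c.D c.Dm
  have hB0 : MeasurableSet c.B0 := hBk 0
  obtain ⟨hla, hna, -⟩ := h1 c.B0 hB0
  have hcc : Measurable c.cl := hME3 Y T c.tc.L c.D c.Dm
  set p : Y → Y := fun y => zp T (-(la T c.B0 y : ℤ)) y with hp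
  have hpm : Measurable p := zp_neg_meas T hla
  set F : ℕ × ℕ × ℕ × ℕ → Fin d := fun x =>
    if h : x.1 < x.2.1 then c.tc.W x.2.1 x.2.2.1 x.2.2.2 ⟨x.1, h⟩ else c.tc.M 0 with hF
  have hFm : Measurable F := Measurable.of_discrete
  have e : c.z0 = fun y => F (la T c.B0 y, na T c.B0 (p y), c.cl (p y), c.ms (p y)) := by
    funext y
    rfl
  rw [e]
  exact hFm.comp (hla.prodMk ((hna.comp hpm).prodMk ((hcc.comp hpm).prodMk (c.msm.comp hpm))))

end Pool.Agent.H75.PG
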